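import Pool.Agent.H54.LQ.Targets

/-!
# Row BSU of the board lpq_modules: hits of the stabilizers are Borel
-/

set_option autoImplicit false

open Set Filter Topology

namespace Pool.Agent.H4.LQ

open Pool.Agent.H93.CP Pool.Agent.H7.LP Pool.Agent.H7.LQ Pool.Agent.H54.LQ

private theorem proj_closed {T G : Type} [TopologicalSpace T] [TopologicalSpace G] (C : Set G)
    (hC : IsCompact C) (E : Set (T × G)) (hE : IsClosed E) :
    IsClosed {t : T | ∃ h ∈ C, (t, h) ∈ E} := by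
  haveI : CompactSpace C := isCompact_iff_compactSpace.mp hC
  have h1 : IsClosed ((fun p : T × C => (p.1, (p.2 : G))) ⁻¹' E) := hE.preimage (by fun_prop)
  have h2 := isClosedMap_fst_of_compactSpace _ h1
  have h3 : {t : T | ∃ h ∈ C, (t, h) ∈ E} =
      Prod.fst '' ((fun p : T × C => (p.1, (p.2 : G))) ⁻¹' E) := by
    ext t
    constructor
    · rintro ⟨h, hh, he⟩
      exact ⟨(t, ⟨h, hh⟩), he, rfl⟩
    · rintro ⟨⟨t', h⟩, he, rfl⟩
      exact ⟨h, h.2, he⟩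
  rw [h3]
  exact h2

theorem pf_BSU (h1 : Pool.Agent.H7.LP.T_LAB) (h2 : Pool.Agent.H7.LP.T_OCI) (h3 : T_SGO)
    (h4 : T_CLB) : T_BSU := by
  intro G X _ _ _ _ _ _ _ _ L M _ Y k U hU
  obtain ⟨-, hl2, -, -, -, hl6, -⟩ := h1 G
  have hP := L.piece k
  obtain ⟨g, hg⟩ := h2 G _ hP.op
  obtain ⟨C, hC1, hC2, hC3⟩ := h3 G _ _ U hP hU
  obtain ⟨t, ht1, ht2, ht3⟩ := h4 G X M Y _ _ g hP
  letI := t
  haveI := ht1
  haveI := ht2
  have key : ∀ (x : X) (b : G) (i : ℕ) (h : G), b * (g i)⁻¹ ∈ L.H k → h ∈ L.H k →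
      (h ∈ Stb (L.H k) (lb L Y k x b) ↔
        (x, (b * (g i)⁻¹)⁻¹ * h * (b * (g i)⁻¹)) ∈ {p : X × G | p.2 ∈ L.H k ∧
          lab (L.R k) (tr (p.2 * g i) (Y.C p.1)) = lab (L.R k) (tr (g i) (Y.C p.1))}) := by
    intro x b i h ha hh
    have e0 : lb L Y k x b = tr (b * (g i)⁻¹) (lab (L.R k) (tr (g i) (Y.C x))) := by
      rw [← hl2 _ _ _ hP _ ha, ← tr_mul, inv_mul_cancel_right]
      rfl
    generalize b * (g i)⁻¹ = a at ha e0
    have ha' : a⁻¹ * h * a ∈ L.H k :=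
      (L.H k).mul_mem ((L.H k).mul_mem ((L.H k).inv_mem ha) hh) ha
    have e1 : lab (L.R k) (tr (a⁻¹ * h * a * g i) (Y.C x)) =
        tr (a⁻¹ * h * a) (lab (L.R k) (tr (g i) (Y.C x))) := by
      rw [tr_mul, hl2 _ _ _ hP _ ha']
    rw [mem_Stb, e0]
    constructor
    · rintro ⟨-, h5⟩
      refine ⟨ha', ?_⟩
      show lab (L.R k) (tr (a⁻¹ * h * a * g i) (Y.C x)) = lab (L.R k) (tr (g i) (Y.C x))
      rw [e1, tr_mul, tr_mul, h5, ← tr_mul, inv_mul_cancel, tr_one]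
    · rintro ⟨-, h5⟩
      have h6 : tr (a⁻¹ * h * a) (lab (L.R k) (tr (g i) (Y.C x))) =
          lab (L.R k) (tr (g i) (Y.C x)) := by
        rw [← e1]
        exact h5
      refine ⟨hh, ?_⟩
      rw [← tr_mul]
      have e2 : h * a = a * (a⁻¹ * h * a) := by group
      rw [e2, tr_mul, h6]
  have hset : {p : X × G | ((Stb (L.H k) (lb L Y k p.1 p.2) : Set G) ∩ U).Nonempty} =
      ⋃ i : ℕ, ({p : X × G | p.2 * (g i)⁻¹ ∈ L.H k} ∩ ⋃ l : ℕ, {p : X × G | ∃ c ∈ C l,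
        (p, c) ∈ (fun z : (X × G) × G => (z.1.1, (z.1.2 * (g i)⁻¹)⁻¹ * z.2 *
          (z.1.2 * (g i)⁻¹))) ⁻¹' {p : X × G | p.2 ∈ L.H k ∧
          lab (L.R k) (tr (p.2 * g i) (Y.C p.1)) = lab (L.R k) (tr (g i) (Y.C p.1))}}) := by
    ext ⟨x, b⟩
    have hR : L.R k ≤ Stb (L.H k) (lb L Y k x b) := hl6 _ _ _ hP
    rw [mem_iUnion]
    constructor
    · rintro ⟨h, hs, hu⟩
      have hs' : h ∈ Stb (L.H k) (lb L Y k x b) := hs
      obtain ⟨i, hi⟩ := hg b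
      obtain ⟨l, c, hc, hr⟩ := hC3 h hs'.1 hu
      refine ⟨i, hi, mem_iUnion.2 ⟨l, c, hc, ?_⟩⟩
      have hcs : c ∈ Stb (L.H k) (lb L Y k x b) := by
        have e1 : c = h * (c⁻¹ * h)⁻¹ := by group
        rw [e1]
        exact (Stb (L.H k) (lb L Y k x b)).mul_mem hs'
          ((Stb (L.H k) (lb L Y k x b)).inv_mem (hR hr))
      exact (key x b i c hi (hC2 l c hc).1).1 hcs
    · rintro ⟨i, hi, h5⟩
      obtain ⟨l, c, hc, h6⟩ := mem_iUnion.1 h5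
      obtain ⟨hcH, r, hr, hru⟩ := hC2 l c hc
      have hcs := (key x b i c hi hcH).2 h6
      exact ⟨c * r, (Stb (L.H k) (lb L Y k x b)).mul_mem hcs (hR hr), hru⟩
  rw [hset]
  refine MeasurableSet.iUnion fun i => MeasurableSet.inter ?_ (MeasurableSet.iUnion fun l => ?_)
  · have h5 : IsOpen {p : X × G | p.2 * (g i)⁻¹ ∈ L.H k} := hP.op.preimage (by fun_prop)
    exact h5.measurableSet
  · exact (proj_closed (C l) (hC1 l) _ ((ht3 i).preimage (by fun_prop))).measurableSet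

end Pool.Agent.H4.LQ
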