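import Pool.Agent.H7.LP.Targets4
import Pool.Agent.H71.PermTop

/-!
# Row PGR of the board lpq_modules: the non-archimedean group which acts on relations
-/

set_option autoImplicit false

open Set Filter Topology
open Pool.Agent.H7.LP Pool.Agent.H7.LQ
open Pool.Agent.H93.CP

namespace Pool.Agent.H4.LQ.PGR

/-- the group which acts on structures, with its topology -/
def GP : Type := Equiv.Perm ℕ

instance : Group GP := inferInstanceAs (Group (Equiv.Perm ℕ))

instance : TopologicalSpace GP := Pool.Agent.H71.permTop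

instance : IsTopologicalGroup GP := by
  let _ : TopologicalSpace (Equiv.Perm ℕ) := Pool.Agent.H71.permTop
  exact (Pool.Agent.H71.isTopologicalGroup_perm : IsTopologicalGroup (Equiv.Perm ℕ))

instance : PolishSpace GP := by
  let _ : TopologicalSpace (Equiv.Perm ℕ) := Pool.Agent.H71.permTop
  exact (Pool.Agent.H71.polishSpace_perm : PolishSpace (Equiv.Perm ℕ))

instance : MeasurableSpace GP := borel GP

instance : BorelSpace GP := ⟨rfl⟩

/-- the value of `π` at `a` -/
def ev (π : GP) (a : ℕ) : ℕ := (show Equiv.Perm ℕ from π) a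

lemma isOpen_ev (a b : ℕ) : IsOpen {π : GP | ev π a = b} := by
  let _ : TopologicalSpace (Equiv.Perm ℕ) := Pool.Agent.H71.permTop
  exact Pool.Agent.H71.isOpen_apply_eq a b

lemma inv_ap (π : GP) (a b : ℕ) : ev π⁻¹ a = b ↔ ev π b = a := by
  change (show Equiv.Perm ℕ from π)⁻¹ a = b ↔ _
  rw [Equiv.Perm.inv_eq_iff_eq, eq_comm]
  rfl

lemma ev_mul (π σ : GP) (a : ℕ) : ev (π * σ) a = ev π (ev σ a) := rfl

lemma ev_one (a : ℕ) : ev 1 a = a := rfl

/-- the pointwise stabilizers -/
def Vn (n : ℕ) : Subgroup GP where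
  carrier := {π | ∀ a < n, ev π a = a}
  mul_mem' := by
    intro π σ h1 h2 a ha
    rw [ev_mul, h2 a ha, h1 a ha]
  one_mem' := fun _ _ => rfl
  inv_mem' := by
    intro π h1 a ha
    rw [inv_ap]
    exact h1 a ha

lemma isOpen_Vn (n : ℕ) : IsOpen (Vn n : Set GP) := by
  have h1 : (Vn n : Set GP) = ⋂ a ∈ Finset.range n, {π : GP | ev π a = a} := by
    ext π
    simp only [mem_iInter, Finset.mem_range, mem_ofPred_eq]
    rfl
  rw [h1]
  exact isOpen_biInter_finset fun a _ => isOpen_ev a a

lemma nonArch_GP : NonArch GP := by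
  intro U hU
  by_contra hcon
  push Not at hcon
  have h1 : ∀ n, ∃ h : GP, h ∈ Vn n ∧ h ∉ U := by
    intro n
    have h2 := hcon (Vn n) (isOpen_Vn n)
    rw [Set.not_subset] at h2
    obtain ⟨h, hh, hh'⟩ := h2
    exact ⟨h, hh, hh'⟩
  choose h hh hh' using h1
  have h2 : Tendsto h atTop (𝓝 (1 : GP)) := by
    let _ : TopologicalSpace (Equiv.Perm ℕ) := Pool.Agent.H71.permTop
    refine Pool.Agent.H71.tendsto_perm ?_ ?_
    · intro a
      filter_upwards [Filter.eventually_gt_atTop a] with n hn
      exact hh n a hn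
    · intro a
      filter_upwards [Filter.eventually_gt_atTop a] with n hn
      rw [Equiv.symm_apply_eq]
      exact (hh n a hn).symm
  obtain ⟨n, hn⟩ := (h2.eventually_mem hU).exists
  exact hh' n hn

/-- the action on structures -/
def act (π : GP) (w : Rel) : Rel := fun i j n => w (ev π⁻¹ i) (ev π⁻¹ j) n

lemma act_one (w : Rel) : act 1 w = w := by
  funext i j n
  unfold act
  rw [inv_one, ev_one, ev_one]

lemma act_mul (π σ : GP) (w : Rel) : act (π * σ) w = act π (act σ w) := by
  funext i j n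
  unfold act
  rw [mul_inv_rev, ev_mul, ev_mul]

lemma iso_iff (w w' : Rel) : IsoR w w' ↔ ∃ π : GP, act π w = w' := by
  constructor
  · rintro ⟨π, hπ⟩
    refine ⟨(show GP from π)⁻¹, ?_⟩
    funext i j n
    unfold act
    rw [inv_inv]
    exact (hπ i j n).symm
  · rintro ⟨π, rfl⟩
    exact ⟨(π⁻¹ : GP), fun i j n => rfl⟩

lemma isOpen_mv (i c : ℕ) : IsOpen {π : GP | ev π⁻¹ i = c} := by
  have h1 : {π : GP | ev π⁻¹ i = c} = {π : GP | ev π c = i} := by
    ext π
    simp only [mem_ofPred_eq]
    rw [inv_ap]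
  rw [h1]
  exact isOpen_ev _ _

end Pool.Agent.H4.LQ.PGR

namespace Pool.Agent.H4.LQ

open PGR

theorem pf_PGR : T_PGR := by
  intro W _ hW
  have hinv : ∀ (π : GP) (w : W), act π w.1 ∈ W := fun π w =>
    hW w.1 _ w.2 ((iso_iff _ _).2 ⟨π, rfl⟩)
  let A : MulAction GP W :=
    { smul := fun π w => ⟨act π w.1, hinv π w⟩
      one_smul := fun w => Subtype.ext (act_one w.1)
      mul_smul := fun π σ w => Subtype.ext (act_mul π σ w.1) }
  have hsm : ∀ (π : GP) (w : W), (π • w : W).1 = act π w.1 := fun _ _ => rfl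
  have hM : MeasurableSMul₂ GP W := by
    refine ⟨?_⟩
    refine Measurable.subtype_mk ?_
    refine measurable_pi_lambda _ fun i => measurable_pi_lambda _ fun j =>
      measurable_pi_lambda _ fun n => ?_
    refine measurable_to_countable' fun b => ?_
    have h1 : (fun p : GP × W => act p.1 p.2.1 i j n) ⁻¹' {b} =
        ⋃ c : ℕ × ℕ, ({p : GP × W | ev p.1⁻¹ i = c.1} ∩
          {p : GP × W | ev p.1⁻¹ j = c.2}) ∩ {p : GP × W | p.2.1 c.1 c.2 n = b} := by
      ext p
      simp only [mem_preimage, mem_singleton_iff, mem_iUnion, mem_inter_iff, mem_ofPred_eq]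
      constructor
      · intro h2
        exact ⟨(ev p.1⁻¹ i, ev p.1⁻¹ j), ⟨rfl, rfl⟩, h2⟩
      · rintro ⟨c, ⟨h2, h3⟩, h4⟩
        unfold act
        rw [h2, h3]
        exact h4
    rw [h1]
    refine MeasurableSet.iUnion fun c => ((?_ : MeasurableSet _).inter ?_).inter ?_
    · exact (isOpen_mv i c.1).measurableSet.preimage measurable_fst
    · exact (isOpen_mv j c.2).measurableSet.preimage measurable_fst
    · have h0 : Measurable fun w : Rel => w c.1 c.2 n := by
        have h01 : Measurable fun w : Rel => w c.1 := measurable_pi_apply c.1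
        have h02 : Measurable fun w : Rel => w c.1 c.2 := (measurable_pi_apply c.2).comp h01
        exact (measurable_pi_apply n).comp h02
      have h2 : Measurable fun p : GP × W => p.2.1 c.1 c.2 n :=
        h0.comp (measurable_subtype_coe.comp measurable_snd)
      exact h2 (measurableSet_singleton b)
  refine ⟨GP, inferInstance, inferInstance, inferInstance, inferInstance, inferInstance,
    inferInstance, A, hM, nonArch_GP, fun w w' => ?_⟩
  rw [iso_iff]
  constructor
  · rintro ⟨π, hπ⟩
    exact ⟨π, by rw [← hsm, hπ]⟩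
  · rintro ⟨π, hπ⟩
    exact ⟨π, Subtype.ext (by rw [hsm, hπ])⟩

end Pool.Agent.H4.LQ
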