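import Pool.Agent.H69.LQ.Lib

/-!
# Module UA: radial test functions for the unit ball
-/

set_option autoImplicit false

open MeasureTheory Metric Set
open scoped ENNReal
open Pool.Agent.H85.LK (E adm lam Ann)
open Pool.Agent.H69.LQ

namespace Pool.Agent.H4.LQ

theorem exG (η : ℝ) (hη : 0 < η) : ∃ G g : ℝ → ℝ, ContDiff ℝ (⊤ : ℕ∞) G ∧
    (∀ y, HasDerivAt G (g y) y) ∧ (∀ y, 0 ≤ g y ∧ g y ≤ 1) ∧ (∀ y, y ≤ η → G y = 0) ∧
    (∀ y, 0 ≤ G y) ∧ (∀ y, 0 ≤ y → G y ≤ y) ∧ ∀ y, y - 2 * η ≤ G y := by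
  obtain ⟨g, hgd⟩ : ∃ g : ℝ → ℝ, g = fun y => Real.smoothTransition ((y - η) / η) := ⟨_, rfl⟩
  have hgs : ContDiff ℝ (⊤ : ℕ∞) g := by
    rw [hgd]
    exact Real.smoothTransition.contDiff.comp ((contDiff_id.sub contDiff_const).div_const _)
  have hg0 : ∀ y, 0 ≤ g y ∧ g y ≤ 1 := fun y => by
    rw [hgd]
    exact ⟨Real.smoothTransition.nonneg _, Real.smoothTransition.le_one _⟩
  have hgz : ∀ y, y ≤ η → g y = 0 := fun y hy => by
    rw [hgd]
    exact Real.smoothTransition.zero_of_nonpos (div_nonpos_of_nonpos_of_nonneg (by linarith) hη.le)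
  have hg1 : ∀ y, 2 * η ≤ y → g y = 1 := fun y hy => by
    rw [hgd]
    exact Real.smoothTransition.one_of_one_le ((one_le_div hη).2 (by linarith))
  obtain ⟨G, hGd⟩ : ∃ G : ℝ → ℝ, G = fun y => ∫ s in η..y, g s := ⟨_, rfl⟩
  have hder : ∀ y, HasDerivAt G (g y) y := fun y => by
    rw [hGd]
    exact (hgs.continuous.integral_hasStrictDerivAt η y).hasDerivAt
  have hz : ∀ y, y ≤ η → G y = 0 := fun y hy => by
    rw [hGd]
    simp only
    have : ∫ s in η..y, g s = ∫ s in η..y, (0 : ℝ) := by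
      refine intervalIntegral.integral_congr fun s hs => ?_
      rw [uIcc_of_ge hy] at hs
      exact hgz s hs.2
    rw [this, intervalIntegral.integral_zero]
  have hmon : Monotone G := monotone_of_deriv_nonneg (fun y => (hder y).differentiableAt)
    fun y => by
      rw [(hder y).deriv]
      exact (hg0 y).1
  have hnn : ∀ y, 0 ≤ G y := fun y => by
    rcases le_total y η with h | h
    · rw [hz y h]
    · rw [← hz η le_rfl]
      exact hmon h
  refine ⟨G, g, ?_, hder, hg0, hz, hnn, fun y hy => ?_, fun y => ?_⟩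
  · rw [contDiff_infty_iff_deriv]
    refine ⟨fun y => (hder y).differentiableAt, ?_⟩
    have : deriv G = g := funext fun y => (hder y).deriv
    rw [this]
    exact hgs
  · rcases le_total y η with h | h
    · rw [hz y h]
      exact hy
    · have hm2 : Monotone fun y => y - G y := by
        refine monotone_of_deriv_nonneg (fun y => (differentiableAt_id.sub
          (hder y).differentiableAt)) fun y => ?_
        have h3 : HasDerivAt (fun y => y - G y) (1 - g y) y := (hasDerivAt_id y).sub (hder y)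
        rw [h3.deriv]
        linarith [(hg0 y).2]
      have h2 := hm2 h
      simp only [hz η le_rfl] at h2
      linarith
  · rcases le_total y (2 * η) with h | h
    · linarith [hnn y]
    · have h1 : G y = G (2 * η) + ∫ s in (2 * η)..y, g s := by
        rw [hGd]
        simp only
        rw [intervalIntegral.integral_add_adjacent_intervals
          (hgs.continuous.intervalIntegrable _ _) (hgs.continuous.intervalIntegrable _ _)]
      have h2 : ∫ s in (2 * η)..y, g s = ∫ s in (2 * η)..y, (1 : ℝ) := by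
        refine intervalIntegral.integral_congr fun s hs => ?_
        rw [uIcc_of_le h] at hs
        exact hg1 s hs.1
      rw [h1, h2, intervalIntegral.integral_const, smul_eq_mul, mul_one]
      linarith [hnn (2 * η)]

theorem exA (p q : ℝ → ℝ) (hp : ContDiff ℝ (⊤ : ℕ∞) p) (hd : ∀ r, HasDerivAt p (q r) r)
    (h0 : p 0 = 0) (h1 : p 1 = 0) (η : ℝ) (hη : 0 < η) (G g : ℝ → ℝ)
    (hG : ContDiff ℝ (⊤ : ℕ∞) G) (hGd : ∀ y, HasDerivAt G (g y) y)
    (hGz : ∀ y, y ≤ η → G y = 0) : ∃ (a : ℝ → ℝ) (δ : ℝ), Ann a δ ∧ (∀ t, t ≤ 0 → a t = 0) ∧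
      (∀ t, 1 ≤ t → a t = 0) ∧
      ∀ t, 0 < t → t < 1 → a t = G (p t) ∧ deriv a t = g (p t) * q t := by
  classical
  have e0 : ∀ᶠ t in nhds (0 : ℝ), p t < η := by
    refine hp.continuous.continuousAt.eventually (gt_mem_nhds ?_)
    rw [h0]
    exact hη
  have e1 : ∀ᶠ t in nhds (1 : ℝ), p t < η := by
    refine hp.continuous.continuousAt.eventually (gt_mem_nhds ?_)
    rw [h1]
    exact hη
  obtain ⟨δ0, hδ0, e0⟩ := Metric.eventually_nhds_iff.1 e0
  obtain ⟨δ1, hδ1, e1⟩ := Metric.eventually_nhds_iff.1 e1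
  obtain ⟨δ, hδd⟩ : ∃ δ : ℝ, δ = min (min δ0 δ1) (1 / 2) := ⟨_, rfl⟩
  have hδ : 0 < δ := by
    rw [hδd]
    positivity
  have hδ2 : δ ≤ 1 / 2 := by
    rw [hδd]
    exact min_le_right _ _
  have hδa : δ ≤ δ0 := by
    rw [hδd]
    exact (min_le_left _ _).trans (min_le_left _ _)
  have hδb : δ ≤ δ1 := by
    rw [hδd]
    exact (min_le_left _ _).trans (min_le_right _ _)
  obtain ⟨a, ha⟩ : ∃ a : ℝ → ℝ, a = fun t => if 0 < t ∧ t < 1 then G (p t) else 0 := ⟨_, rfl⟩
  have a1 : ∀ t, 0 < t → t < 1 → a t = G (p t) := fun t h2 h3 => by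
    rw [ha]
    exact if_pos ⟨h2, h3⟩
  have a0 : ∀ t, t < δ → a t = 0 := fun t ht => by
    rw [ha]
    simp only
    split_ifs with h
    · refine hGz _ (e0 ?_).le
      rw [Real.dist_eq, sub_zero, abs_of_pos h.1]
      linarith
    · rfl
  have a2 : ∀ t, 1 - δ < t → a t = 0 := fun t ht => by
    rw [ha]
    simp only
    split_ifs with h
    · refine hGz _ (e1 ?_).le
      rw [Real.dist_eq, abs_sub_comm, abs_of_pos (by linarith [h.2])]
      linarith
    · rfl
  have ev1 : ∀ t, 0 < t → t < 1 → a =ᶠ[nhds t] fun t => G (p t) := fun t h2 h3 => by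
    filter_upwards [isOpen_Ioo.mem_nhds (⟨h2, h3⟩ : t ∈ Ioo (0 : ℝ) 1)] with s hs
    exact a1 s hs.1 hs.2
  refine ⟨a, δ / 2, ⟨?_, by positivity, by linarith, fun t ht => a0 t (by linarith),
    fun t ht => a2 t (by linarith)⟩, fun t ht => a0 t (by linarith), fun t ht => a2 t (by linarith),
    fun t h2 h3 => ⟨a1 t h2 h3, ?_⟩⟩
  · rw [contDiff_iff_contDiffAt]
    intro t
    by_cases h2 : 0 < t
    · by_cases h3 : t < 1
      · exact (hG.comp hp).contDiffAt.congr_of_eventuallyEq (ev1 t h2 h3)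
      · refine (contDiffAt_const (c := (0 : ℝ))).congr_of_eventuallyEq ?_
        filter_upwards [isOpen_Ioi.mem_nhds (show t ∈ Ioi (1 - δ) by
          rw [mem_Ioi]; linarith)] with s hs
        exact a2 s hs
    · refine (contDiffAt_const (c := (0 : ℝ))).congr_of_eventuallyEq ?_
      filter_upwards [isOpen_Iio.mem_nhds (show t ∈ Iio δ by rw [mem_Iio]; linarith)] with s hs
      exact a0 s hs
  · rw [(ev1 t h2 h3).deriv_eq]
    exact ((hGd (p t)).comp t (hd t)).deriv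

theorem core (N : ℕ) (L ε : ℝ) (hN : 2 ≤ N) (hL : 0 < L) (hε : 0 < ε) (p q : ℝ → ℝ)
    (hp : ContDiff ℝ (⊤ : ℕ∞) p) (hq : ContDiff ℝ (⊤ : ℕ∞) q) (hd : ∀ r, HasDerivAt p (q r) r)
    (ho : ∀ r, 0 < r → HasDerivAt (fun r => r ^ (N - 1) * q r)
      (r ^ (N - 1) * ((((N : ℝ) - 1) / r ^ 2 - L) * p r)) r) (h0 : p 0 = 0) (h1 : p 1 = 0)
    (hpos : ∀ r, 0 < r → r < 1 → 0 < p r) : ∃ (a : ℝ → ℝ) (δ : ℝ), Ann a δ ∧
  0 < ∫ t in Ioi (0 : ℝ), a t ^ 2 * t ^ (N - 1) ∧
  ∫ t in Ioi (0 : ℝ), (deriv a t ^ 2 + ((N : ℝ) - 1) * a t ^ 2 / t ^ 2) * t ^ (N - 1) ≤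
    (L + ε) * ∫ t in Ioi (0 : ℝ), a t ^ 2 * t ^ (N - 1) := by
  have hN1 : (0 : ℝ) ≤ (N : ℝ) - 1 := by
    have : (2 : ℝ) ≤ N := by exact_mod_cast hN
    linarith
  have hcp := hp.continuous
  have hcq := hq.continuous
  have hcw : Continuous fun t : ℝ => t ^ (N - 1) := continuous_pow _
  obtain ⟨D, hD⟩ : ∃ D : ℝ, D = ∫ t in (0 : ℝ)..1, p t ^ 2 * t ^ (N - 1) := ⟨_, rfl⟩
  obtain ⟨K, hK⟩ : ∃ K : ℝ, K = ∫ t in (0 : ℝ)..1, p t * t ^ (N - 1) := ⟨_, rfl⟩
  have hD0 : 0 < D := by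
    rw [hD]
    refine intervalIntegral.intervalIntegral_pos_of_pos_on
      (((hcp.pow 2).mul hcw).intervalIntegrable _ _) (fun t ht => ?_) zero_lt_one
    exact mul_pos (pow_pos (hpos t ht.1 ht.2) 2) (pow_pos ht.1 _)
  have hK0 : 0 ≤ K := by
    rw [hK]
    refine (intervalIntegral.intervalIntegral_pos_of_pos_on
      ((hcp.mul hcw).intervalIntegrable _ _) (fun t ht => ?_) zero_lt_one).le
    exact mul_pos (hpos t ht.1 ht.2) (pow_pos ht.1 _)
  obtain ⟨η, hηd⟩ : ∃ η : ℝ, η = ε * D / (4 * (L + ε) * (K + 1)) := ⟨_, rfl⟩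
  have hη : 0 < η := by
    rw [hηd]
    positivity
  have hηK : (L + ε) * (4 * η * K) ≤ ε * D := by
    have e1 : (L + ε) * (4 * η * K) = ε * D * (K / (K + 1)) := by
      rw [hηd]
      field_simp
    rw [e1]
    have e2 : K / (K + 1) ≤ 1 := (div_le_one (by positivity)).2 (by linarith)
    have e3 : 0 ≤ ε * D := by positivity
    nlinarith
  obtain ⟨G, g, hG, hGd, hg, hGz, hGn, hGl, hGu⟩ := exG η hη
  obtain ⟨a, δ, hA, ha0, ha1, haG⟩ := exA p q hp hd h0 h1 η hη G g hG hGd hGz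
  refine ⟨a, δ, hA, ?_⟩
  obtain ⟨has, hδ, hδ1, haδ, haδ'⟩ := hA
  have hca := has.continuous
  have hcd : Continuous (deriv a) := has.continuous_deriv (by norm_cast)
  have had : ∀ t, HasDerivAt a (deriv a t) t := fun t =>
    (has.differentiable (by norm_cast) t).hasDerivAt
  have hda1 : ∀ t, 1 < t → deriv a t = 0 := fun t ht => by
    have : a =ᶠ[nhds t] fun _ => 0 := by
      filter_upwards [isOpen_Ioi.mem_nhds (show t ∈ Ioi (1 : ℝ) from ht)] with s hs
      exact ha1 s (le_of_lt hs)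
    rw [this.deriv_eq, deriv_const]
  have hI : ∀ f : ℝ → ℝ, (∀ t, 1 < t → f t = 0) →
      ∫ t in Ioi (0 : ℝ), f t = ∫ t in (0 : ℝ)..1, f t := by
    intro f hf
    rw [intervalIntegral.integral_of_le zero_le_one]
    refine setIntegral_eq_of_subset_of_forall_diff_eq_zero measurableSet_Ioi
      Ioc_subset_Ioi_self fun t ht => hf t ?_
    by_contra h
    exact ht.2 ⟨ht.1, not_lt.1 h⟩
  have hcc : Continuous fun t => a t / t ^ 2 := by
    rw [continuous_iff_continuousAt]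
    intro t
    rcases lt_or_ge t δ with h | h
    · refine (continuousAt_const (y := (0 : ℝ))).congr ?_
      filter_upwards [isOpen_Iio.mem_nhds (show t ∈ Iio δ from h)] with s hs
      rw [haδ s (le_of_lt hs), zero_div]
    · exact hca.continuousAt.div (continuousAt_id.pow 2) (pow_ne_zero _ (by linarith : 0 < t).ne')
  -- the three integrands
  have hF1 : Continuous fun t => (deriv a t ^ 2 + ((N : ℝ) - 1) * a t ^ 2 / t ^ 2) *
      t ^ (N - 1) := by
    have : (fun t => (deriv a t ^ 2 + ((N : ℝ) - 1) * a t ^ 2 / t ^ 2) * t ^ (N - 1)) =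
        fun t => (deriv a t ^ 2 + ((N : ℝ) - 1) * (a t * (a t / t ^ 2))) * t ^ (N - 1) := by
      funext t
      ring
    rw [this]
    exact ((hcd.pow 2).add (continuous_const.mul (hca.mul hcc))).mul hcw
  have hF2 : Continuous fun t => (q t * deriv a t + ((N : ℝ) - 1) * (p t * (a t / t ^ 2))) *
      t ^ (N - 1) := ((hcq.mul hcd).add (continuous_const.mul (hcp.mul hcc))).mul hcw
  have hF3 : Continuous fun t => L * (p t * a t * t ^ (N - 1)) :=
    continuous_const.mul ((hcp.mul hca).mul hcw)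
  have haa : ∀ t, 0 < t → t < 1 → 0 ≤ a t ∧ a t ≤ p t ∧ p t - 2 * η ≤ a t := by
    intro t h2 h3
    rw [(haG t h2 h3).1]
    exact ⟨hGn _, hGl _ (hpos t h2 h3).le, hGu _⟩
  have i12 : ∫ t in (0 : ℝ)..1, (deriv a t ^ 2 + ((N : ℝ) - 1) * a t ^ 2 / t ^ 2) *
      t ^ (N - 1) ≤ ∫ t in (0 : ℝ)..1, (q t * deriv a t + ((N : ℝ) - 1) *
        (p t * (a t / t ^ 2))) * t ^ (N - 1) := by
    refine intervalIntegral.integral_mono_on_of_le_Ioo zero_le_one
      (hF1.intervalIntegrable _ _) (hF2.intervalIntegrable _ _) fun t ht => ?_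
    obtain ⟨b1, b2, -⟩ := haa t ht.1 ht.2
    have b3 := (haG t ht.1 ht.2).2
    refine mul_le_mul_of_nonneg_right (add_le_add ?_ ?_) (pow_nonneg ht.1.le _)
    · rw [b3]
      obtain ⟨c1, c2⟩ := hg (p t)
      have : g (p t) * (1 - g (p t)) * q t ^ 2 ≥ 0 := by
        have : 0 ≤ 1 - g (p t) := by linarith
        positivity
      nlinarith
    · have e1 : ((N : ℝ) - 1) * a t ^ 2 / t ^ 2 = ((N : ℝ) - 1) * (a t * (a t / t ^ 2)) := by
        ring
      rw [e1]
      refine mul_le_mul_of_nonneg_left (mul_le_mul_of_nonneg_right b2 ?_) hN1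
      exact div_nonneg b1 (sq_nonneg t)
  have i23 : ∫ t in (0 : ℝ)..1, (q t * deriv a t + ((N : ℝ) - 1) *
      (p t * (a t / t ^ 2))) * t ^ (N - 1) = ∫ t in (0 : ℝ)..1, L * (p t * a t * t ^ (N - 1)) := by
    rw [← sub_eq_zero, ← intervalIntegral.integral_sub (hF2.intervalIntegrable _ _)
      (hF3.intervalIntegrable _ _)]
    have h2 := intervalIntegral.integral_eq_sub_of_hasDerivAt_of_le (a := 0) (b := 1)
      (f := fun t => t ^ (N - 1) * q t * a t) (f' := fun t => (q t * deriv a t + ((N : ℝ) - 1) *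
      (p t * (a t / t ^ 2))) * t ^ (N - 1) - L * (p t * a t * t ^ (N - 1))) zero_le_one
      ((hcw.mul hcq).mul hca).continuousOn (fun t ht => ?_)
      ((hF2.sub hF3).intervalIntegrable _ _)
    · rw [h2, ha1 1 le_rfl, ha0 0 le_rfl]
      ring
    · have h3 := (ho t ht.1).mul (had t)
      refine h3.congr_deriv ?_
      have h4 : t ≠ 0 := ht.1.ne'
      field_simp
      ring
  have i3 : ∫ t in (0 : ℝ)..1, L * (p t * a t * t ^ (N - 1)) ≤ L * D := by
    rw [intervalIntegral.integral_const_mul, hD]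
    refine mul_le_mul_of_nonneg_left ?_ hL.le
    refine intervalIntegral.integral_mono_on_of_le_Ioo zero_le_one
      (((hcp.mul hca).mul hcw).intervalIntegrable _ _)
      (((hcp.pow 2).mul hcw).intervalIntegrable _ _) fun t ht => ?_
    obtain ⟨b1, b2, -⟩ := haa t ht.1 ht.2
    refine mul_le_mul_of_nonneg_right ?_ (pow_nonneg ht.1.le _)
    rw [sq]
    exact mul_le_mul_of_nonneg_left b2 (hpos t ht.1 ht.2).le
  have i4 : D - 4 * η * K ≤ ∫ t in (0 : ℝ)..1, a t ^ 2 * t ^ (N - 1) := by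
    have e1 : D - 4 * η * K = ∫ t in (0 : ℝ)..1, (p t ^ 2 * t ^ (N - 1) -
        4 * η * (p t * t ^ (N - 1))) := by
      have g1 : IntervalIntegrable (fun t => p t ^ 2 * t ^ (N - 1)) volume 0 1 :=
        ((hcp.pow 2).mul hcw).intervalIntegrable _ _
      have g2 : IntervalIntegrable (fun t => 4 * η * (p t * t ^ (N - 1))) volume 0 1 :=
        (continuous_const.mul (hcp.mul hcw)).intervalIntegrable _ _
      rw [intervalIntegral.integral_sub g1 g2, intervalIntegral.integral_const_mul, hD, hK]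
    rw [e1]
    refine intervalIntegral.integral_mono_on_of_le_Ioo zero_le_one
      ((((hcp.pow 2).mul hcw).sub (continuous_const.mul (hcp.mul hcw))).intervalIntegrable _ _)
      (((hca.pow 2).mul hcw).intervalIntegrable _ _) fun t ht => ?_
    obtain ⟨b1, b2, b3⟩ := haa t ht.1 ht.2
    have b4 := hpos t ht.1 ht.2
    have e2 : p t ^ 2 * t ^ (N - 1) - 4 * η * (p t * t ^ (N - 1)) =
        (p t ^ 2 - 4 * η * p t) * t ^ (N - 1) := by ring
    rw [e2]
    refine mul_le_mul_of_nonneg_right ?_ (pow_nonneg ht.1.le _)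
    rcases le_total (p t) (2 * η) with h | h
    · nlinarith [sq_nonneg (a t)]
    · nlinarith [sq_nonneg η]
  have hJ1 : ∫ t in Ioi (0 : ℝ), a t ^ 2 * t ^ (N - 1) =
      ∫ t in (0 : ℝ)..1, a t ^ 2 * t ^ (N - 1) := hI _ fun t ht => by
    rw [ha1 t ht.le]
    ring
  have hJ2 : ∫ t in Ioi (0 : ℝ), (deriv a t ^ 2 + ((N : ℝ) - 1) * a t ^ 2 / t ^ 2) *
      t ^ (N - 1) = ∫ t in (0 : ℝ)..1, (deriv a t ^ 2 + ((N : ℝ) - 1) * a t ^ 2 / t ^ 2) *
      t ^ (N - 1) := hI _ fun t ht => by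
    rw [ha1 t ht.le, hda1 t ht]
    ring
  rw [hJ1, hJ2]
  have f1 : L * D ≤ (L + ε) * (D - 4 * η * K) := by linarith
  have f2 : (L + ε) * (D - 4 * η * K) ≤ (L + ε) * ∫ t in (0 : ℝ)..1, a t ^ 2 * t ^ (N - 1) :=
    mul_le_mul_of_nonneg_left i4 (by positivity)
  have f3 : 0 < L * D := by positivity
  refine ⟨?_, by linarith⟩
  by_contra hc
  have : (L + ε) * ∫ t in (0 : ℝ)..1, a t ^ 2 * t ^ (N - 1) ≤ 0 :=
    mul_nonpos_of_nonneg_of_nonpos (by positivity) (not_lt.1 hc)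
  linarith

theorem pf_UA (hPH : T_PH) (hPV : T_PV) : T_UA := by
  intro N L ε hN hF hε
  obtain ⟨hd, hs, ho⟩ := hPH N L hN
  obtain ⟨hpos, hp1, -⟩ := hPV N L hN hF
  refine core N L ε hN hF.pos hε (ph N L 1) (dph N L 1) (hs 1).1 (hs 1).2 (hd 1)
    (fun r hr => ?_) ?_ hp1 hpos
  · refine (ho 1 r hr).congr_deriv ?_
    push_cast
    ring
  · unfold ph
    rw [pow_one, zero_mul]

end Pool.Agent.H4.LQ
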